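import Pool.Graph.R_pool_sql_team_seeded_3997aac3.H105.AMA.Main
import Pool.Graph.R_pool_sql_team_seeded_3997aac3.H105.AMA.Inv

/-!
# Arbitrarily large gaps between the additivity and the uniformity of the meager-additive sets

The library's forcing (`H105.AMA`) is run over an arbitrary infinite set `K` with `#K ^ ℵ₀ = #K`,
while the thin families stay indexed by the reals of the ground model.
-/

set_option autoImplicit false
set_option linter.unusedSectionVars false
set_option linter.deprecated false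

namespace Pool.Agent.AMA7

open Classical Cardinal Pool.Agent.Helper669.Forcing Pool.Agent.H105.AMA
open Pool.Agent.W684.BMA (Inf Next Captured InfN NextN CapturedN AllCaptured AllCapturedN fiff
  MeagerAdditive MASets additivity Cant toP toP_iff meagerAdditive_of_captured
  captured_of_meagerAdditive not_meagerAdditive_univ)

/-- All families of reals indexed by `K` are captured for all partitions, but the union of `M`
many captured families indexed by `L` need not be captured. -/
def GapFor (K M L : Type) : Prop := AllCaptured K ∧ UnionNotCaptured M L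

/-- The sentence `GapFor K M L` of the forcing language. -/
def GapHolds (P : Type) [Preorder P] (K M L : Type) : Set P :=
  fand (AllCapturedN P K) (UnionNotCapturedN P M L)

variable {K I : Type} [LinearOrder I] [WellFoundedLT I]

theorem unionNotCapturedN_of_infinite [Infinite K] {Γ : Par K I} (hΓ : Full Γ)
    (hI : Pool.Agent.W684.FM.Bdd K I)
    (hA : ∀ (x : Nm K I) (β δ : I), Supp (Set.Iio δ) x →
      ∃ j, β ≤ j ∧ Γ.typ j = none ∧ Γ.A j = x)
    (hT : ∀ g : ℕ → Bool, (∀ N, ∃ n, N ≤ n ∧ g n = true) → ∀ β, ∃ j, β ≤ j ∧ Γ.typ j = some g)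
    (hT' : ∀ j g, Γ.typ j = some g → ∀ N, ∃ n, N ≤ n ∧ g n = true)
    (p : PP Γ) : p ∈ UnionNotCapturedN (PP Γ) (ℕ → Bool) I := by
  refine mem_fex_of_mem (fun g i => famX Γ g i) (down_fand
    (down_fall fun _ => down_fall fun _ => down_fimp _ _) (down_fex _)) ⟨fun g A => ?_, ?_⟩
  · refine mem_fimp.2 fun q _ hq => ⟨q, le_rfl, ?_⟩
    obtain ⟨B, y, hB, hcap⟩ : ∃ B y : ℕ → Set (PP Γ), q ∈ InfN B ∧
        ∀ i, q ∈ CapturedN A B y (famX Γ g i) := by
      by_cases hg : ∀ N, ∃ n, N ≤ n ∧ g n = true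
      · exact famX_captured hΓ hI hA hg hq
      · have h1 : ∀ i, famX Γ g i = fun _ => ∅ := fun i => by
          rw [famX, if_neg fun h => hg (hT' i g h)]
        obtain ⟨B, y, hB, hcap⟩ := famX_captured (g := fun _ => true) hΓ hI hA
          (fun N => ⟨N, le_rfl, rfl⟩) hq
        obtain ⟨j, hj⟩ : ∃ j, Γ.typ j = none := by
          obtain ⟨a, ha⟩ := exists_raw_name A
          obtain ⟨δ, hδ⟩ := exists_supp hI (J := Unit)
            (by simpa using (Cardinal.one_le_aleph0.trans (Cardinal.aleph0_le_mk K)))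
            fun _ => a
          obtain ⟨j, _, hj, _⟩ := hA a δ δ (hδ δ le_rfl ())
          exact ⟨j, hj⟩
        have h2 := hcap j
        rw [famX, if_neg (by rw [hj]; simp)] at h2
        exact ⟨B, y, hB, fun i => by rw [h1]; exact h2⟩
    exact mem_fex_of_mem B (down_fex _) (mem_fex_of_mem y (down_fand
      (Pool.Agent.H105.AMA.down_InfN _)
      (down_fall fun _ => Pool.Agent.H105.AMA.down_CapturedN _ _ _ _)) ⟨hB, hcap⟩)
  · refine mem_fex_of_mem (fun _ => Set.univ) (down_fand (Pool.Agent.H105.AMA.down_InfN _)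
      (down_fall fun _ => down_fall fun _ => down_fimp _ _)) ⟨fun m => ?_, fun B y => ?_⟩
    · exact mem_fex_of_mem m (down_fand (down_fground _) (down_meets _))
        ⟨show m ≤ m from le_rfl, meets_of_mem (Set.mem_univ p)⟩
    · refine mem_fimp.2 fun q _ hq => ⟨q, le_rfl, ?_⟩
      obtain ⟨g, _, i, hi⟩ := not_captured hΓ hI hT (y := y) hq
      exact mem_fex_of_mem g (down_fex _) (mem_fex_of_mem i (down_fnot _) hi)


theorem continuum_le {K : Type} [Infinite K] (hK : #K ^ ℵ₀ = #K) : #(ℕ → Bool) ≤ #K := by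
  have hc : #(ℕ → Bool) = 𝔠 := by simp
  rw [hc, ← Cardinal.two_power_aleph0, ← hK]
  exact Cardinal.power_le_power_right
    ((Cardinal.natCast_le_aleph0 (n := 2)).trans (Cardinal.aleph0_le_mk K))

/-- The combinatorial sentence is forced by all conditions of some ccc preorder. -/
theorem exists_forcing_gap (K : Type) [Infinite K] (hK : #K ^ ℵ₀ = #K) :
    ∃ (L P : Type) (_ : Preorder P), Nonempty P ∧
    (∀ A : Set P, (∀ p ∈ A, ∀ q ∈ A, p ≠ q → ¬ ∃ r, r ≤ p ∧ r ≤ q) → A.Countable) ∧
      ∀ p : P, p ∈ GapHolds P K (ℕ → Bool) L := by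
  obtain ⟨Γ, hΓ, hA, hT, hT'⟩ := exists_par K hK
    {g | ∀ N, ∃ n, N ≤ n ∧ g n = true} ((Cardinal.mk_set_le _).trans (continuum_le hK))
  have hI := Pool.Agent.W684.FM.bdd_succ K
  refine ⟨(Order.succ #K).ord.ToType, PP Γ, inferInstance,
    ⟨(Cond.one : Cond _ _)⟩, pccc, fun p => ⟨allCapturedN hΓ hI hA p, ?_⟩⟩
  exact unionNotCapturedN_of_infinite hΓ hI hA hT hT' p

/-- the combinatorial sentence gives `add(MA) ≤ #M` and `#K < non(MA)` -/
theorem gap {K M L : Type} (h : GapFor K M L) :
    additivity MASets ≤ #M ∧ #K < uniformity MASets := by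
  obtain ⟨hall, x, hx, A, hA, hnot⟩ := h
  let z : M → L → ℕ → ZMod 2 := fun k l n => if x k l n then 1 else 0
  have hz : ∀ k l, toP (z k l) = x k l := by
    intro k l
    funext n
    unfold toP
    by_cases hn : x k l n
    · simp [z, hn]
    · simp [z, hn]
  refine ⟨?_, ?_⟩
  · refine (csInf_le' (a := #(Set.range fun k => Set.range (z k))) ?_).trans Cardinal.mk_range_le
    refine ⟨_, ?_, rfl, fun hM => ?_⟩
    · rintro _ ⟨k, rfl⟩
      apply meagerAdditive_of_captured
      intro A' hA'
      obtain ⟨B, y, hB, hc⟩ := hx k A' hA'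
      refine ⟨B, y, hB, ?_⟩
      rintro _ ⟨l, rfl⟩
      rw [hz]
      exact hc l
    · obtain ⟨B, y, hB, hc⟩ := captured_of_meagerAdditive hM hA
      obtain ⟨k, l, hkl⟩ := hnot B y hB
      apply hkl
      rw [← hz]
      exact hc _ ⟨_, ⟨k, rfl⟩, l, rfl⟩
  · obtain ⟨X, hX, hX'⟩ := uniformity_MA_mem
    rw [← hX']
    by_contra hcon
    exact hX (meagerAdditive_of_small hall (not_lt.1 hcon))

/-- arbitrarily large admissible `K` -/
theorem exists_large (κ : Cardinal.{0}) : ∃ K : Type, Infinite K ∧ #K ^ ℵ₀ = #K ∧ κ ≤ #K := by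
  induction κ using Cardinal.inductionOn with
  | _ X =>
    refine ⟨ℕ → (X ⊕ ℕ), inferInstance, ?_, ?_⟩
    · rw [← Cardinal.mk_nat, Cardinal.power_def, ← Cardinal.mk_congr (Equiv.curry ℕ ℕ (X ⊕ ℕ))]
      exact Cardinal.mk_congr (Equiv.arrowCongr Nat.pairEquiv (Equiv.refl _))
    · exact Cardinal.mk_le_of_injective (f := fun x => fun _ : ℕ => (Sum.inl x : X ⊕ ℕ))
        (fun a b h => by
          have := congrFun h 0
          exact Sum.inl_injective this)

end Pool.Agent.AMA7
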